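import Mathlib
import Pool.Agent.Results.MP_43d316_gt.Classification

namespace Pool.Agent.Results.MP_43d316_gt.AllRings

open Pool.Agent.Helper62.Skein Pool.Agent.Helper62.Families Pool.Agent.Helper62.SkeinFam
open Pool.Agent.Results.MP_43d316_gt.TorsionFamilies (UnknotTorsion new_rel_pos)
open Pool.Agent.Results.MP_43d316_gt.Classification

/-- sufficiency over an arbitrary ring -/
theorem suf_all {R : Type*} [CommRing R] (a b0 b3 : Rˣ) (b1 b2 bi : R) (p : Ideal R)
    [hprime : p.IsPrime] (hz : ∀ r ∈ p, r ∉ nonZeroDivisors R)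
    (h : At p FamilyK a b0 b3 b1 b2 bi ∨ At p FamilyB a b0 b3 b1 b2 bi ∨
      At p FamilyO a b0 b3 b1 b2 bi ∨ At p FamilyS a b0 b3 b1 b2 bi) :
    ¬ UnknotTorsion a b0 b3 b1 b2 bi := by
  have tower : ∀ x : R,
      algebraMap R (Res p) x = algebraMap (R ⧸ p) (Res p) (Ideal.Quotient.mk p x) := by
    intro x
    rw [IsScalarTower.algebraMap_apply R (R ⧸ p) (Res p)]
    rfl
  intro ht
  obtain ⟨r, hr, hm⟩ := (torsion_iff _ _ _ _ _ _).1 ht
  have h1 := cc_mem (Ideal.Quotient.mk p) a b0 b3 b1 b2 bi hm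
  rw [cc_smul, cc_link] at h1
  have hrp : r ∉ p := fun hrp => hz r hrp hr
  have h2 : UnknotTorsion (Units.map (Ideal.Quotient.mk p : R →* R ⧸ p) a)
        (Units.map (Ideal.Quotient.mk p : R →* R ⧸ p) b0)
        (Units.map (Ideal.Quotient.mk p : R →* R ⧸ p) b3)
        (Ideal.Quotient.mk p b1) (Ideal.Quotient.mk p b2) (Ideal.Quotient.mk p bi) := by
    refine (torsion_iff _ _ _ _ _ _).2 ⟨Ideal.Quotient.mk p r, ?_, h1⟩
    apply mem_nonZeroDivisors_of_ne_zero
    rwa [Ne, Ideal.Quotient.eq_zero_iff_mem]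
  exact domain_suf _ _ _ _ _ _ (tower _) (tower _) (tower _) (tower _) (tower _) (tower _) h h2

/-- necessity over an arbitrary ring, for invertible `b_infinity` -/
theorem nec_all {R : Type*} [CommRing R] (a b0 b3 e : Rˣ) (b1 b2 : R)
    (h : ¬ UnknotTorsion a b0 b3 b1 b2 (e : R)) :
    ∃ (p : Ideal R) (_ : p.IsPrime), (∀ r ∈ p, r ∉ nonZeroDivisors R) ∧
      (At p FamilyY a b0 b3 b1 b2 (e : R) ∨ At p FamilyK a b0 b3 b1 b2 (e : R) ∨
        At p FamilyB a b0 b3 b1 b2 (e : R) ∨ At p FamilyO a b0 b3 b1 b2 (e : R)) := by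
  let J : Ideal R := LinearMap.ker (LinearMap.toSpanSingleton R _ (T1 a b0 b3 b1 b2 (e : R)))
  have hJ : ∀ r : R, r • T1 a b0 b3 b1 b2 (e : R) = 0 → r ∈ J := by
    intro r hr
    show LinearMap.toSpanSingleton R _ (T1 a b0 b3 b1 b2 (e : R)) r = 0
    rw [LinearMap.toSpanSingleton_apply]
    exact hr
  have hJ' : ∀ r ∈ J, r • T1 a b0 b3 b1 b2 (e : R) = 0 := by
    intro r hr
    have : LinearMap.toSpanSingleton R _ (T1 a b0 b3 b1 b2 (e : R)) r = 0 := hr
    rwa [LinearMap.toSpanSingleton_apply] at this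
  have hd : Disjoint (J : Set R) (nonZeroDivisors R : Set R) := by
    rw [Set.disjoint_left]
    intro r hr hn
    exact h ⟨r, hn, hJ' r hr⟩
  obtain ⟨p, hp, hJp, hdisj⟩ := Ideal.exists_le_prime_disjoint J (nonZeroDivisors R) hd
  refine ⟨p, hp, fun r hr hn => Set.disjoint_left.1 hdisj hr hn, ?_⟩
  -- the scalars
  obtain ⟨τ, hτ⟩ : ∃ τ : R, (a : R) ^ 3 * b0 + a ^ 2 * b1 + a * b2 + b3 + a ^ 3 * e * τ = 0 := by
    refine ⟨-(((a ^ 3 * e)⁻¹ : Rˣ) : R) * ((a : R) ^ 3 * b0 + a ^ 2 * b1 + a * b2 + b3), ?_⟩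
    have := Units.mul_inv (a ^ 3 * e)
    push_cast at this
    linear_combination (-((a : R) ^ 3 * b0 + a ^ 2 * b1 + a * b2 + b3)) * this
  obtain ⟨η, hη⟩ : ∃ η : R, (b0 : R) + a ^ 2 * b2 + a ^ 2 * e + a * b1 * τ + a * b3 * η = 0 := by
    refine ⟨-(((a * b3)⁻¹ : Rˣ) : R) * ((b0 : R) + a ^ 2 * b2 + a ^ 2 * e + a * b1 * τ), ?_⟩
    have := Units.mul_inv (a * b3)
    push_cast at this
    linear_combination (-((b0 : R) + a ^ 2 * b2 + a ^ 2 * e + a * b1 * τ)) * this
  have hT2 : T2 a b0 b3 b1 b2 (e : R) = τ • T1 a b0 b3 b1 b2 (e : R) := by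
    have h1 := p1_rel a b0 b3 b1 b2 (e : R)
    have h2 : ((a ^ 3 * e : Rˣ) : R) • (T2 a b0 b3 b1 b2 (e : R) - τ • T1 a b0 b3 b1 b2 (e : R))
        = 0 := by
      push_cast
      rw [smul_sub, smul_smul, sub_eq_zero, ← sub_eq_zero, ← h1]
      have e1 : (a : R) ^ 3 * e * τ = -((a : R) ^ 3 * b0 + a ^ 2 * b1 + a * b2 + b3) := by
        linear_combination hτ
      rw [e1]
      module
    have h3 := congrArg (fun x => (((a ^ 3 * e)⁻¹ : Rˣ) : R) • x) h2
    simp only [smul_zero, smul_smul, Units.inv_mul, one_smul] at h3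
    exact sub_eq_zero.1 h3
  have hH : Hopf a b0 b3 b1 b2 (e : R) = η • T1 a b0 b3 b1 b2 (e : R) := by
    have h1 := hopf_rel1 a b0 b3 b1 b2 (e : R)
    rw [hT2] at h1
    have h2 : ((a * b3 : Rˣ) : R) • (Hopf a b0 b3 b1 b2 (e : R) - η • T1 a b0 b3 b1 b2 (e : R))
        = 0 := by
      push_cast
      rw [smul_sub, smul_smul, ← h1]
      have e1 : (a : R) * b3 * η = -((b0 : R) + a ^ 2 * b2 + a ^ 2 * e + a * b1 * τ) := by
        linear_combination hη
      rw [e1]
      module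
    have h3 := congrArg (fun x => (((a * b3)⁻¹ : Rˣ) : R) • x) h2
    simp only [smul_zero, smul_smul, Units.inv_mul, one_smul] at h3
    exact sub_eq_zero.1 h3
  have q3 := hopf_rel2 a b0 b3 b1 b2 (e : R)
  have q4 := new_rel_N a b0 b3 b1 b2 (e : R)
  have q5 := new_rel_D a b0 b3 b1 b2 (e : R)
  have q6 := new_rel_neg a b0 b3 b1 b2 (e : R)
  have q7 := new_rel_pos a b0 b3 b1 b2 (e : R)
  simp only [hT2, hH, smul_smul, ← add_smul] at q3 q4 q5 q6 q7
  have zero_of : ∀ r : R, r • T1 a b0 b3 b1 b2 (e : R) = 0 → algebraMap R (Res p) r = 0 := by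
    intro r hr
    have hrp : r ∈ p := hJp (hJ r hr)
    rw [IsScalarTower.algebraMap_apply R (R ⧸ p) (Res p)]
    have : algebraMap R (R ⧸ p) r = 0 := Ideal.Quotient.eq_zero_iff_mem.2 hrp
    rw [this, map_zero]
  have z3 := zero_of _ q3
  have z4 := zero_of _ q4
  have z5 := zero_of _ q5
  have z6 := zero_of _ q6
  have z7 := zero_of _ q7
  have z1 := congrArg (algebraMap R (Res p)) hτ
  have z2 := congrArg (algebraMap R (Res p)) hη
  simp only [map_add, map_mul, map_sub, map_pow, map_zero] at z1 z2 z3 z4 z5 z6 z7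
  have hunit : ∀ u : Rˣ, algebraMap R (Res p) u ≠ 0 := fun u =>
    (u.isUnit.map (algebraMap R (Res p))).ne_zero
  unfold At
  refine families (hunit a) (hunit b0) (hunit b3) (t := algebraMap R (Res p) τ)
    (h := algebraMap R (Res p) η)
    (cm := algebraMap R (Res p) a * algebraMap R (Res p) b0 ^ 2 * algebraMap R (Res p) b2
      + algebraMap R (Res p) b1 * algebraMap R (Res p) b3 ^ 2
      - algebraMap R (Res p) a ^ 2 * algebraMap R (Res p) (e : R) * algebraMap R (Res p) b0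
        * algebraMap R (Res p) b3)
    (cv := algebraMap R (Res p) a ^ 2 * algebraMap R (Res p) (e : R) * algebraMap R (Res p) b0 ^ 2
      - algebraMap R (Res p) b0 * algebraMap R (Res p) b1 * algebraMap R (Res p) b3
      + algebraMap R (Res p) b2 * algebraMap R (Res p) b3 ^ 2) ?_ ?_ ?_ rfl rfl ?_ ?_ ?_ ?_
  · linear_combination z1
  · linear_combination z2
  · linear_combination z3
  · linear_combination z4
  · linear_combination z5
  · linear_combination z6
  · linear_combination z7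

/-- **Every commutative ring.** Call a prime ideal all of whose elements are zero divisors a
zero divisor prime.
(1) For arbitrary parameters: if the parameters are in one of the families `K`, `B`, `O`, `S` at some
zero divisor prime, then the trivial knot is not torsion.
(2) If `b_infinity` is invertible and the trivial knot is not torsion, then the parameters are in one
of the families `Y`, `K`, `B`, `O` at some zero divisor prime.
(3) Hence, if `b_infinity` is invertible and the parameters are in the family `Y` at no zero divisor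
prime, the trivial knot is not torsion if and only if the parameters are in one of the families `K`,
`B`, `O` at some zero divisor prime. -/
theorem result {R : Type*} [CommRing R] (a b0 b3 : Rˣ) (b1 b2 bi : R) :
    ((∃ (p : Ideal R) (_ : p.IsPrime), (∀ r ∈ p, r ∉ nonZeroDivisors R) ∧
        (At p FamilyK a b0 b3 b1 b2 bi ∨ At p FamilyB a b0 b3 b1 b2 bi ∨
          At p FamilyO a b0 b3 b1 b2 bi ∨ At p FamilyS a b0 b3 b1 b2 bi)) →
      ¬ UnknotTorsion a b0 b3 b1 b2 bi) ∧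
    (IsUnit bi → ¬ UnknotTorsion a b0 b3 b1 b2 bi →
      ∃ (p : Ideal R) (_ : p.IsPrime), (∀ r ∈ p, r ∉ nonZeroDivisors R) ∧
        (At p FamilyY a b0 b3 b1 b2 bi ∨ At p FamilyK a b0 b3 b1 b2 bi ∨
          At p FamilyB a b0 b3 b1 b2 bi ∨ At p FamilyO a b0 b3 b1 b2 bi)) ∧
    (IsUnit bi → (∀ (p : Ideal R) (_ : p.IsPrime), (∀ r ∈ p, r ∉ nonZeroDivisors R) →
        ¬ At p FamilyY a b0 b3 b1 b2 bi) →
      (¬ UnknotTorsion a b0 b3 b1 b2 bi ↔
        ∃ (p : Ideal R) (_ : p.IsPrime), (∀ r ∈ p, r ∉ nonZeroDivisors R) ∧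
          (At p FamilyK a b0 b3 b1 b2 bi ∨ At p FamilyB a b0 b3 b1 b2 bi ∨
            At p FamilyO a b0 b3 b1 b2 bi))) := by
  have h1 : (∃ (p : Ideal R) (_ : p.IsPrime), (∀ r ∈ p, r ∉ nonZeroDivisors R) ∧
        (At p FamilyK a b0 b3 b1 b2 bi ∨ At p FamilyB a b0 b3 b1 b2 bi ∨
          At p FamilyO a b0 b3 b1 b2 bi ∨ At p FamilyS a b0 b3 b1 b2 bi)) →
      ¬ UnknotTorsion a b0 b3 b1 b2 bi := by
    rintro ⟨p, hp, hz, h⟩
    exact suf_all a b0 b3 b1 b2 bi p hz h
  refine ⟨h1, ?_, ?_⟩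
  · rintro ⟨e, rfl⟩ h
    exact nec_all a b0 b3 e b1 b2 h
  · rintro ⟨e, rfl⟩ hY
    constructor
    · intro h
      obtain ⟨p, hp, hz, hf⟩ := nec_all a b0 b3 e b1 b2 h
      exact ⟨p, hp, hz, hf.resolve_left (hY p hp hz)⟩
    · rintro ⟨p, hp, hz, h⟩
      refine h1 ⟨p, hp, hz, ?_⟩
      rcases h with h | h | h
      · exact Or.inl h
      · exact Or.inr (Or.inl h)
      · exact Or.inr (Or.inr (Or.inl h))

end Pool.Agent.Results.MP_43d316_gt.AllRings
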